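import Mathlib
import Pool.Agent.N205.SE.NCNum
import Pool.Agent.N205.SG.Count

/-!
# The noncommutative conjecture of Beilinson for the tensor products of almost all abelian varieties of
every Newton stratum with all dg categories of geometric origin

Let `g i` (`i` in a finite set `I`) be positive integers, `B` any number and `d` a number such that
either `d ≤ 2`, or `d ≤ g i` and `g i` is three or at least five, for all `i` (`DimsU`).  By Honda and
Tate the irreducible polynomials in `weilPolys (p ^ a) g` correspond to the isogeny classes of the
simple abelian varieties over the field with `q = p ^ a` elements whose field `ℚ (π)` has degree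
`2 g`; the characteristic polynomial of the Frobenius is a power of the polynomial (the polynomial
itself if `a = 1` or if the abelian variety is ordinary).

Let `S i` be a **stratum** (`IsStratum p a (g i) t (S i)`), for instance the set of the Weil
polynomials of degree `2 g i` whose Newton polygon is a given one, or lies on or above a given one,
or any set in between, or the set of the Weil polynomials of given `p`-rank. The parameter `t` may be
`a` if the `p`-rank is at least two, and any number `t ≤ a (1 - 2 λ) - 1` where `λ` is the first slope
(normalised so that the supersingular polygon has slope one half), see `StrataFacts`: so every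
stratum except for the supersingular one is included as soon as `a (1 - 2 λ) ≥ 2`.

There is a constant `C`, depending only on `g`, `d` and `B`, such that the following holds.

**(1)** For all families `f i` in `S i` with the exception of a proportion at most
`C (p ^ t) ^ (-1 / 6) log (p ^ t)`, the statement `NCNumForIndep (p ^ a) f` holds: for all `s > 0`, all
abelian varieties `A` over the field `k` with `q ^ s` elements, isogenous to products of powers of
abelian varieties coming from the field with `q` elements whose characteristic polynomials are powers
of the `f i`, and **all** smooth projective varieties `Z` over `k` such that

* no power `α ^ N`, `N > 0`, of a root `α` of one of the `f i` is a product of powers (with positive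
  or negative exponents) of `q` and of eigenvalues of Frobenius of `Z` (`Indep`),
* homologically trivial self-correspondences of `A × Z` of degree zero are nilpotent (this holds if the
  motive of `Z` is finite-dimensional in the sense of Kimura and O'Sullivan, for instance if `Z` is
  dominated by a product of curves),

there are finitely many products `D j` of divisors on `A` such that

* for **all** smooth proper dg categories `𝒯` over `k` which are direct summands `(Z, e)` of the
  noncommutative motive of `Z` with rational coefficients, for instance components of semi-orthogonal
  decompositions of the category of perfect complexes on `Z`: `K_0(perf(A) ⊗ 𝒯)_ℚ` is the direct sum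
  of the `D j × K_0(𝒯)_ℚ`, and **the kernel of the Euler pairing of `perf(A) ⊗ 𝒯` is the direct sum of
  the products of the `D j` with the kernel of the Euler pairing of `𝒯`**; in particular
  `Ker (χ_ℚ) = 0` for `perf(A) ⊗ 𝒯` if and only if `Ker (χ_ℚ) = 0` for `𝒯`: the noncommutative
  conjecture of Beilinson for `perf(A) ⊗ 𝒯` is **equivalent** to the one for `𝒯`;
* if the conjecture of Beilinson holds for the variety `Z` (rational and numerical equivalence
  coincide), then `Ker (χ_ℚ) = 0` for **all** smooth proper dg categories `𝒮` which are direct
  summands of the noncommutative motive of `A × Z`, not necessarily tensor products.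

The exceptional families do not depend on `Z`, not even on its dimension, nor on `𝒯` or `𝒮`, and nothing
is assumed about algebraic cycles on `Z`.

**(2)** Let `χ₀` be any nonzero rational polynomial of degree at most `B`, for instance the
characteristic polynomial of Frobenius on the whole cohomology of a variety `Z₀` with total Betti
number at most `B`. With the exception of a proportion at most `C (p ^ t) ^ (-1 / 6) log (p ^ t)` of the
families, **all** varieties `Z` which are tame relative to `χ₀` are independent: this is the case if the
eigenvalues of Frobenius of `Z`, up to powers and up to a group of rank less than the `g i`, are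
products of rational numbers, of roots of `χ₀` and of Weil numbers of degree less than `2 d` (`d ≥ 3`).

For example (`χ₀ = X - 1`): if the `g i` are three or at least five and `d` is the minimum of the `g i`,
then for almost all families the noncommutative conjecture of Beilinson for the direct summands of
the noncommutative motives of `A × C₁ × ... × C_n`, the `C_l` curves of genus less than `d`, is reduced
to the conjecture of Beilinson for `C₁ × ... × C_n`, which is known for `n ≤ 2`; it is proved for all
independent curves and surfaces `Z` which are dominated by products of curves (for curves and surfaces
over finite fields rational and numerical equivalence coincide).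

In the starting file `AlmostAllAbelianFactors` on this page the sets `S i` contain all ordinary
polynomials, the exceptional set depends on a number field `E` which contains powers of the eigenvalues
of `Z` up to a group of rank less than the `g i`, and only tensor products are considered.

The idea of the proof: by a sieve (helper521, helper484, and my modules SD, SG) almost all families in
a stratum are such that each pair `α`, `q / α` of roots can be exchanged by a Galois automorphism which
fixes all the other roots of all the `f i`. So for independent `Z` the only Tate classes on `A × Z` are
sums of products of the `D j` with Tate classes on `Z`. By nilpotence, and since Frobenius acts on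
`CH^i` as multiplication by `Q ^ i`, `CH(A × Z)_ℚ` is the direct sum of the `D j × CH(Z)_ℚ` (the idea to
play the eigenvalues of Frobenius off against nilpotence is due to Soule, Geisser and Kahn). The
products with the `D j` commute with `e` and `1 × e` although `e` is not homogeneous (helper484), and
are compatible with numerical equivalence by duality for the `D j`.
-/

set_option autoImplicit false

namespace Pool.Agent.Results.MP_dd457d_ag.EveryCategory

open Polynomial Pool.Agent.N205.SG

open Pool.Agent.N205.SE (NCNumForIndep)

/-- `StrataFacts`: the sets of the Weil polynomials with given Newton polygon, or with Newton
polygon on or above a given one, and the sets of those of given `p`-rank, are strata. -/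
theorem result :
    (∀ {I : Type} [Fintype I] (g : I → ℕ) (_ : ∀ i, 0 < g i) (d : ℕ) (_ : DimsU g d) (B : ℕ),
      ∃ C : ℝ, ∀ p a t : ℕ, p.Prime → 0 < a → 0 < t → ∀ S : I → Set ℤ[X],
        (∀ i, IsStratum p a (g i) t (S i)) →
        (∀ i, (S i).Finite ∧ (4 ^ g i ≤ p ^ t → (S i).Nonempty)) ∧
        ({f : I → ℤ[X] | (∀ i, f i ∈ S i) ∧ ¬ NCNumForIndep (p ^ a) f}.ncard : ℝ) ≤
          C * (Real.log ((p ^ t : ℕ) : ℝ) * ((p ^ t : ℕ) : ℝ) ^ (-(1 / 6) : ℝ)) *
            ∏ i, ((S i).ncard : ℝ) ∧
        ∀ χ₀ : ℚ[X], χ₀ ≠ 0 → χ₀.natDegree ≤ B →
          ({f : I → ℤ[X] | (∀ i, f i ∈ S i) ∧ ¬ TameIndep g d (p ^ a) χ₀ f}.ncard : ℝ) ≤
            C * (Real.log ((p ^ t : ℕ) : ℝ) * ((p ^ t : ℕ) : ℝ) ^ (-(1 / 6) : ℝ)) *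
              ∏ i, ((S i).ncard : ℝ)) ∧
    StrataFacts :=
  ⟨fun g hg d hd B => indep_unif g hg d hd B (fun q f => NCNumForIndep q f)
    fun _ hq x hx => Pool.Agent.N205.SE.CK.ncNum_indep g hg hq.one_lt x hx, strataFacts⟩

end Pool.Agent.Results.MP_dd457d_ag.EveryCategory
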