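import Pool.Agent.N64.AF.X22

/-!
# The law for the kernels of the Euler pairings

Let `A` be a smooth proper dg category over a finite field `k`, `Ker (χ)` the kernel of the Euler pairing on
`K_0 (A)_ℚ`, `ρ` the rank of `K_0 (A)_ℚ / Ker (χ)`, and `κ_A (n)` the dimension of the kernel of the Euler pairing of
`A^{⊗ n}`. The noncommutative Beilinson conjecture says that `Ker (χ) = 0`.

Theorem. (A) For ALL `A` (over any field): `κ_A (n + 1) ≥ (n + 1) ρ ^ n dim Ker (χ)`. So the conjecture
holds for `A` if and only if `κ_A (n) < n ρ ^ (n - 1)` for ONE `n`; and if it fails, the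
kernels grow on all the powers.

Let moreover `A` satisfy the noncommutative sign conjecture `C⁺` (known for `A = perf (X)`, for ALL smooth proper `X` over
finite fields, by Katz and Messing; it passes to tensor products, opposites, and to noncommutative direct summands which
are cut out by it), let `b > 0` be the dimension of `TP (A)[1/p]`, `B_n = (A^op ⊗ A)^{⊗ n}`, `κ (n)` the dimension of the
kernel of the Euler pairing of `B_n` and `r (n)` the rank of `K_0 (B_n)_ℚ` modulo this kernel.

(B) `κ (n) / r (n)` converges to some `N` in `{0, 1, 2, ..., ∞}`, and `N = 0` if and only if the conjecture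
holds for all `B_n`. If `N = k < ∞` then all these kernels are finite-dimensional, and `k`-fold
compositions of numerically trivial bimodule classes between the `B_n` kill them.

(C) If `2 κ (n) < r (n)` for ONE `n ≥ 128 (m + 1) ^ 2 b ^ (4 m + 12)` then the conjecture holds for `B_m`. If
the Euler pairing of `A^op` is not zero and `2 κ (n) < r (n)` for ONE `n ≥ 512 b ^ 16`, the
conjecture holds for `A`.

The kernel of the Euler pairing of `B_n` contains the numerically trivial endomorphisms of `A^{⊗ n}` in the category of
noncommutative Chow motives.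

The setting. `C` is the category `NChow (k)_ℚ` of noncommutative Chow motives, a rigid symmetric monoidal idempotent
complete `ℚ`-linear category with `Hom (1, U(A)) = K_0(A)_ℚ`, `T = U(A)`, `T^∨ = U(A^op)`, `tp (T ⊗ T^∨) n =
U(B_n)`; the numerically trivial classes are given by the kernel of the Euler pairing (Marcolli, Tabuada). `R` is given
by `TP(-)[1/p]` with coefficients extended to an algebraically closed field (Blumberg and Mandell, Tabuada).

Idea of the proof. (A): let `T_0` be the direct factor of `T` generated by a basis of the numerical classes; it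
is a sum of `ρ` copies of the unit object, and its complement `P` contains all the numerically trivial classes. (B), (C):
the law of the dimensions of the values of additive functors on the powers of `S = T ⊗ T^∨`, and its explicit form, for the functor of
the numerically trivial classes.

Other results by this method: MP_4960c7_ag.ProductsVanish (schemes: all cycles, limits only, a different
limit law), MP_28af06_ag.ZeroOneLaw (the defect between homological and numerical equivalence),
MP_773a8c_ag.GeneratedCycles (homologically trivial cycles).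

Authors: helper64 (this result, plan), and, for the lemmas of the law used here, helper136, helper327,
helper199, helper767, helper8, helper364, helper216, helper73, helper833, helper140, helper494,
helper505, helper301, helper441, helper591, helper712, helper945, helper701, helper344, helper690,
helper413 (objects which are not self-dual).
-/

set_option autoImplicit false

open CategoryTheory MonoidalCategory Module
open Pool.Agent.Y112.SR Pool.Agent.Y112.KD Pool.Agent.N64.AF

namespace Pool.Agent.Results.MP_dd457d_ag.KernelLaw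

universe v u w t

/-- The law for the numerically trivial classes on the powers of `T ⊗ Tᘁ` and of `T`. -/
theorem result {C : Type u} [Category.{v} C] [Preadditive C] [MonoidalCategory C]
    [MonoidalPreadditive C] [SymmetricCategory C] [RightRigidCategory C] [IsIdempotentComplete C]
    {Λ : Type t} [Field Λ] [CharZero Λ] [Linear Λ C] [MonoidalLinear Λ C]
    {K : Type w} [Field K] [IsAlgClosed K] [Algebra Λ K] (R : SuperRealisation C K)
    (hR : IsReal Λ R) (T : C) :
    (∀ n : ℕ, (((n + 1) * numRank Λ T ^ n : ℕ) : ℕ∞) * ntDim Λ T 1 ≤ ntDim Λ T (n + 1)) ∧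
    (NumZero T ↔ ∃ n : ℕ, ntDim Λ T (n + 1) < (((n + 1) * numRank Λ T ^ n : ℕ) : ℕ∞)) ∧
    (R.CPlus T → 0 < bt R T →
      (∃ N : ℕ∞, RatioTo Λ (T ⊗ Tᘁ) (ntDim Λ (T ⊗ Tᘁ)) N ∧
        (N = 0 ↔ ∀ n, NumZero (tp (T ⊗ Tᘁ) n)) ∧
        ∀ k : ℕ, N = k → (∀ n, Module.Finite Λ (numIdeal Λ (𝟙_ C) (tp (T ⊗ Tᘁ) n))) ∧
          ∀ (a c : ℕ) (g : tp (T ⊗ Tᘁ) a ⟶ tp (T ⊗ Tᘁ) c), NumPow (T ⊗ Tᘁ) k g →
            ∀ f : 𝟙_ C ⟶ tp (T ⊗ Tᘁ) a, NumTriv f → f ≫ g = 0) ∧
      (∀ m n : ℕ, 128 * (m + 1) ^ 2 * bt R T ^ (4 * m + 12) ≤ n →
        2 * ntDim Λ (T ⊗ Tᘁ) n < numRank Λ (tp (T ⊗ Tᘁ) n) → NumZero (tp (T ⊗ Tᘁ) m)) ∧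
      ∀ (i : 𝟙_ C ⟶ Tᘁ) (r : Tᘁ ⟶ 𝟙_ C), i ≫ r = 𝟙 _ → ∀ n, 512 * bt R T ^ 16 ≤ n →
        2 * ntDim Λ (T ⊗ Tᘁ) n < numRank Λ (tp (T ⊗ Tᘁ) n) → NumZero T) :=
  ⟨fun n => nt_linear hR T n, numZero_iff hR T, fun hT hb => nt_law hR hT hb⟩

end Pool.Agent.Results.MP_dd457d_ag.KernelLaw
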