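import Mathlib
import Pool.Agent.N578.LB.Main
import Pool.Agent.W484.CK.NCMain

/-!
# The noncommutative conjecture of Beilinson: exceptions are rare in every box of every lattice

Let `g i` (`i` in a finite set `I`) be positive integers, `r` an integer smaller than all the `g i` and `E` a number
field. Put `n = ∑ g i`. For a prime power `q` a point `x` of `ℤ ^ n` gives monic polynomials `h i` of degree `g i` and the
polynomials `f i = X ^ (g i) h i (X + q / X)`; all Weil `q`-polynomials of degree `2 g i` are of this form, and by Weil,
Honda and Tate they correspond to the isogeny classes of abelian varieties of dimension `g i` over the field with `q`
elements (up to multiplicities).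

The starting theorems treat all the Weil polynomials together: the exceptions to the property below are a proportion
`O (q ^ (-1 / 6) log q)`. Here we show that the exceptions are rare **everywhere**: for all `q` and all `B ≥ 2` the
exceptions are a proportion `O (B ^ (-1 / 3) log B)` of the points in every parallelepiped, with sides at least `B`, of
every translate of a lattice of finite index, where the index may have up to `B ^ (1 / 4)` prime factors and the basis
is arbitrary. The constant does not depend on `q`, so that `B` can be much smaller than `q`, for instance `B = log q`, or a
large constant. Diagonal matrices give the residue classes modulo all numbers, in particular modulo the powers of the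
characteristic, that is, all Newton strata (with first slope smaller than `1 / 2`, in the form `q ∤ tr (h i) ^ 2`); the
matrix of the coordinates given by the first coefficients of the `f i` is unimodular. Moreover there is a constant `R`
such that for all `q ≥ R` every point of `ℤ ^ n` has a good point at distance at most `R`.

The proof is the sieve of helper521 and helper484 with the primes that split completely in the Galois closure of `E`,
pulled back by the matrix `A` (helper578, `N578/LB`).

The property (`NCNumForRankOver`): for all `s > 0`, `Q = q ^ s`, all abelian varieties `A` over the field with `Q` elements
which are isogenous to products of powers of abelian varieties coming from the field with `q` elements, with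
characteristic polynomials `f i`, all smooth projective `Z` whose Frobenius eigenvalues and their conjugates generate a
group of rank at most `r` modulo the numbers with a power in `E`, and for which homologically trivial
self-correspondences of `A × Z` are nilpotent, and all smooth proper dg categories `𝒜` which are direct summands of the
noncommutative motive of `Z`: `Ker (χ_ℚ) = 0` for `perf(A) ⊗ 𝒜` if and only if `Ker (χ_ℚ) = 0` for `𝒜`.
-/

set_option autoImplicit false

namespace Pool.Agent.Results.MP_dd457d_ag.LatticeBoxes

open Polynomial Pool.Agent.W484.TB Pool.Agent.W484.CK Pool.Agent.N578.LB

/-- For positive integers `g i > r` and a number field `E`, the property `NCNumForRankOver E q r f` of families `f` of Weil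
`q`-polynomials of degrees `2 g i` holds `InAllLattices`: for a constant `C`, all prime powers `q`, all `B ≥ 2`, in every
parallelepiped with sides at least `B` of every translate of a lattice whose index has at most `B ^ (1 / 4)` prime factors
the exceptions are a proportion `≤ C B ^ (-1 / 3) log B`; and for a constant `R` and `q ≥ R` every point is at distance at most
`R` from a good one. -/
theorem result {I : Type} [Fintype I] [DecidableEq I] (g : I → ℕ) (r : ℕ) (hr : ∀ i, r < g i)
    (E : IntermediateField ℚ ℂ) [FiniteDimensional ℚ E] :
    InAllLattices g (fun q f => NCNumForRankOver E q r f) :=
  inAllLattices (splitPrimes E) (dense_splitPrimes E) g (fun i => (Nat.zero_le r).trans_lt (hr i)) _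
    fun _ hq x hx => ncNumForRankOver_of_good g E hq.one_lt r hr x hx

end Pool.Agent.Results.MP_dd457d_ag.LatticeBoxes
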